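import Pool.Agent.Helper30.CIR.Goals
import Mathlib

/-!
# Project CIR (MP_f32c9c_an), packet DIF
-/

set_option autoImplicit false

open Set Filter Topology MeasureTheory

open scoped ContDiff

namespace Pool.Agent.Helper7.CIR

open Pool.Agent.Helper56.RZ Pool.Agent.Helper30.CIR

/-- positive real part of `1 + u` for `‖u‖ < 1` -/
lemma re_pos {u : ℂ} (hu : ‖u‖ < 1) : 0 < (1 + u).re := by
  have h := Complex.abs_re_le_norm u
  have h2 := abs_le.mp (h.trans hu.le)
  have h3 : |u.re| < 1 := lt_of_le_of_lt h hu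
  have h4 := (abs_lt.mp h3).1
  simp only [Complex.add_re, Complex.one_re]
  linarith

lemma exp_arg (v : ℂ) :
    Complex.exp ((-2 * v.arg : ℝ) * Complex.I) * v = (starRingEnd ℂ) v := by
  have hn : (‖v‖ : ℂ) * Complex.exp (v.arg * Complex.I) = v := Complex.norm_mul_exp_arg_mul_I v
  have hc : (starRingEnd ℂ) v = (‖v‖ : ℂ) * Complex.exp (-(v.arg * Complex.I)) := by
    conv_lhs => rw [← hn]
    rw [map_mul, Complex.conj_ofReal, ← Complex.exp_conj, map_mul, Complex.conj_ofReal,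
      Complex.conj_I]
    congr 2
    ring
  rw [hc]
  conv_lhs => rw [← hn]
  rw [mul_left_comm, ← Complex.exp_add]
  congr 2
  push_cast
  have : ((‖v‖ : ℂ) * Complex.exp (v.arg * Complex.I)).arg = v.arg := by rw [hn]
  rw [this]
  ring

lemma del_neg {K : ℕ} {s : WithTop ℕ∞} {M : Set (E K)} {A : ℝ → E K → E K} {F : E K → ℂ}
    {om c : ℝ} (h : Data s M A F om) (hc : |c| ≤ 1 / 2) {x : E K} (hx : x ∈ M) :
    del (-c) om F (A (del c om F x) x) = - del c om F x := by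
  set u : ℂ := (c : ℂ) * F x with hu
  set v : ℂ := 1 + u with hv
  have hun : ‖u‖ < 1 := by
    rw [hu, norm_mul, Complex.norm_real, Real.norm_eq_abs]
    have h1 := h.le1 x hx
    have h2 : |c| * ‖F x‖ ≤ 1 / 2 * 1 := mul_le_mul hc h1 (norm_nonneg _) (by norm_num)
    linarith
  have hre : 0 < v.re := re_pos hun
  have hv0 : v ≠ 0 := by
    intro h0
    rw [h0] at hre
    simp at hre
  have hom : om ≠ 0 := h.pos.ne'
  have hF : F (A (del c om F x) x) = Complex.exp ((-2 * v.arg : ℝ) * Complex.I) * F x := by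
    rw [h.eig.2 (del c om F x) x hx]
    congr 3
    unfold del
    rw [← hu, ← hv]
    have hp : Real.pi ≠ 0 := Real.pi_ne_zero
    field_simp
  have hF2 : v * (1 + ((-c : ℝ) : ℂ) * F (A (del c om F x) x)) = ((1 - ‖u‖ ^ 2 : ℝ) : ℂ) := by
    rw [hF]
    have e1 := exp_arg v
    have e2 : v * (1 + ((-c : ℝ) : ℂ) * (Complex.exp ((-2 * v.arg : ℝ) * Complex.I) * F x)) =
        v - (Complex.exp ((-2 * v.arg : ℝ) * Complex.I) * v) * u := by
      rw [hu]
      push_cast
      ring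
    rw [e2, e1]
    have e3 : (starRingEnd ℂ) v = 1 + (starRingEnd ℂ) u := by
      rw [hv, map_add, map_one]
    rw [e3]
    have e4 : (starRingEnd ℂ) u * u = ((‖u‖ ^ 2 : ℝ) : ℂ) := by
      rw [mul_comm, Complex.mul_conj, Complex.normSq_eq_norm_sq]
    have e5 : v - (1 + (starRingEnd ℂ) u) * u = 1 - (starRingEnd ℂ) u * u := by
      rw [hv]
      ring
    rw [e5, e4]
    push_cast
    ring
  have hpos : 0 < 1 - ‖u‖ ^ 2 := by
    have : ‖u‖ ^ 2 < 1 := by
      have := norm_nonneg u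
      nlinarith
    linarith
  have hF3 : 1 + ((-c : ℝ) : ℂ) * F (A (del c om F x) x) = ((1 - ‖u‖ ^ 2 : ℝ) : ℂ) * v⁻¹ := by
    rw [← hF2]
    field_simp
  have harg : (1 + ((-c : ℝ) : ℂ) * F (A (del c om F x) x)).arg = - v.arg := by
    rw [hF3, Complex.arg_real_mul _ hpos, Complex.arg_inv]
    rw [if_neg]
    intro hpi
    have := (Complex.arg_eq_pi_iff.mp hpi).1
    linarith
  unfold del
  unfold del at harg
  rw [harg]
  rw [← hu, ← hv]
  ring

lemma del_smooth {K : ℕ} {s : WithTop ℕ∞} {M : Set (E K)} {A : ℝ → E K → E K} {F : E K → ℂ}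
    {om : ℝ} (h : Data s M A F om) :
    ContDiffOn ℝ s (fun p : (ℝ × ℝ) × E K => del p.1.1 om F p.2)
      ({p : ℝ × ℝ | |p.1| < 1} ×ˢ M) := by
  have h1 : ContDiffOn ℝ s (fun p : (ℝ × ℝ) × E K => 1 + (p.1.1 : ℂ) * F p.2)
      ({p : ℝ × ℝ | |p.1| < 1} ×ˢ M) := by
    refine contDiffOn_const.add (ContDiffOn.mul ?_ ?_)
    · exact (Complex.ofRealCLM.contDiff.comp (contDiff_fst.comp contDiff_fst)).contDiffOn
    · exact h.eig.1.comp contDiff_snd.contDiffOn (fun p hp => hp.2)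
  have h2 : ContDiffOn ℝ s (fun p : (ℝ × ℝ) × E K => (1 + (p.1.1 : ℂ) * F p.2).arg)
      ({p : ℝ × ℝ | |p.1| < 1} ×ˢ M) := by
    have h3 : ContDiffOn ℝ s (fun p : (ℝ × ℝ) × E K => Complex.log (1 + (p.1.1 : ℂ) * F p.2))
        ({p : ℝ × ℝ | |p.1| < 1} ×ˢ M) := by
      intro p hp
      have hsl : (1 + (p.1.1 : ℂ) * F p.2) ∈ Complex.slitPlane := by
        left
        apply re_pos
        rw [norm_mul, Complex.norm_real, Real.norm_eq_abs]
        have h4 := h.le1 p.2 hp.2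
        have h5 : |p.1.1| < 1 := hp.1
        have h6 : |p.1.1| * ‖F p.2‖ ≤ |p.1.1| * 1 := by gcongr
        linarith
      have hl : ContDiffAt ℝ s Complex.log (1 + (p.1.1 : ℂ) * F p.2) :=
        (Complex.contDiffAt_log hsl).restrict_scalars ℝ
      exact hl.comp_contDiffWithinAt p (h1 p hp)
    have h4 : ContDiffOn ℝ s (fun p : (ℝ × ℝ) × E K =>
        Complex.imCLM (Complex.log (1 + (p.1.1 : ℂ) * F p.2)))
        ({p : ℝ × ℝ | |p.1| < 1} ×ˢ M) :=
      Complex.imCLM.contDiff.comp_contDiffOn h3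
    refine h4.congr ?_
    intro p _
    simp [Complex.log_im]
  unfold del
  exact (h2.neg).div_const _

lemma hh_smooth {K : ℕ} {s : WithTop ℕ∞} {M : Set (E K)} {A : ℝ → E K → E K} {F : E K → ℂ}
    {om : ℝ} (h : Data s M A F om) :
    ContDiffOn ℝ s (fun p : (ℝ × ℝ) × E K => hh A p.1.1 om p.1.2 F p.2)
      ({p : ℝ × ℝ | |p.1| < 1} ×ˢ M) := by
  have h1 : ContDiffOn ℝ s (fun p : (ℝ × ℝ) × E K => (p.1.2 + del p.1.1 om F p.2, p.2))
      ({p : ℝ × ℝ | |p.1| < 1} ×ˢ M) := by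
    refine ContDiffOn.prodMk ?_ contDiff_snd.contDiffOn
    exact ((contDiff_snd.comp contDiff_fst).contDiffOn).add (del_smooth h)
  exact h.flow.smooth.comp h1 (fun p hp => ⟨mem_univ _, hp.2⟩)

lemma hi_smooth {K : ℕ} {s : WithTop ℕ∞} {M : Set (E K)} {A : ℝ → E K → E K} {F : E K → ℂ}
    {om : ℝ} (h : Data s M A F om) :
    ContDiffOn ℝ s (fun p : (ℝ × ℝ) × E K => hi A p.1.1 om p.1.2 F p.2)
      ({p : ℝ × ℝ | |p.1| < 1} ×ˢ M) := by
  have h1 : ContDiffOn ℝ s (fun p : (ℝ × ℝ) × E K => A (-p.1.2) p.2)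
      ({p : ℝ × ℝ | |p.1| < 1} ×ˢ M) := by
    have h2 : ContDiffOn ℝ s (fun p : (ℝ × ℝ) × E K => (-p.1.2, p.2))
        ({p : ℝ × ℝ | |p.1| < 1} ×ˢ M) :=
      ((contDiff_snd.comp contDiff_fst).neg.prodMk contDiff_snd).contDiffOn
    exact h.flow.smooth.comp h2 (fun p hp => ⟨mem_univ _, hp.2⟩)
  have h3 : ContDiffOn ℝ s (fun p : (ℝ × ℝ) × E K => (((-p.1.1, (0 : ℝ)) : ℝ × ℝ), A (-p.1.2) p.2))
      ({p : ℝ × ℝ | |p.1| < 1} ×ˢ M) := by
    refine ContDiffOn.prodMk ?_ h1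
    exact ((contDiff_fst.comp contDiff_fst).neg.prodMk contDiff_const).contDiffOn
  refine (hh_smooth h).comp h3 ?_
  intro p hp
  refine ⟨?_, h.flow.maps _ hp.2⟩
  have : |p.1.1| < 1 := hp.1
  simpa using this

theorem gDIF : Pool.Agent.Helper30.CIR.StmtDIF := by
  intro K s M A F om c th h hc _
  have hc' : |(-c)| ≤ 1 / 2 := by rwa [abs_neg]
  have hsub : ∀ x ∈ M, (((c, th) : ℝ × ℝ), x) ∈ ({p : ℝ × ℝ | |p.1| < 1} ×ˢ M) := by
    intro x hx
    refine ⟨?_, hx⟩
    show |c| < 1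
    linarith
  have hemb : ContDiffOn ℝ s (fun x : E K => (((c, th) : ℝ × ℝ), x)) M :=
    (contDiff_const.prodMk contDiff_id).contDiffOn
  refine ⟨⟨?_, ?_, ?_, ?_, ?_, ?_⟩, hh_smooth h, hi_smooth h⟩
  · intro x hx
    exact h.flow.maps _ hx
  · intro x hx
    exact h.flow.maps _ (h.flow.maps _ hx)
  · intro x hx
    set d : ℝ := del c om F x with hd
    have hy : A d x ∈ M := h.flow.maps _ hx
    have e1 : hh A c om th F x = A th (A d x) := by
      unfold hh
      rw [← hd, h.flow.add th d x hx]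
    have e2 : A (-th) (A th (A d x)) = A d x := by
      rw [← h.flow.add (-th) th (A d x) hy, neg_add_cancel, h.flow.zero _ hy]
    rw [e1]
    unfold hi
    rw [e2]
    unfold hh
    rw [hd, del_neg h hc hx, ← hd, zero_add, ← h.flow.add (-d) d x hx, neg_add_cancel,
      h.flow.zero x hx]
  · intro x hx
    have hz : A (-th) x ∈ M := h.flow.maps _ hx
    set z : E K := A (-th) x with hzd
    set d : ℝ := del (-c) om F z with hd
    have e1 : hi A c om th F x = A d z := by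
      unfold hi hh
      rw [← hzd, ← hd, zero_add]
    have e3 := del_neg h hc' hz
    rw [neg_neg, ← hd] at e3
    rw [e1]
    unfold hh
    rw [e3, ← h.flow.add (th + -d) d z hz]
    have e4 : th + -d + d = th := by ring
    rw [e4, hzd, ← h.flow.add th (-th) x hx, add_neg_cancel, h.flow.zero x hx]
  · have h1 := (hh_smooth h).comp hemb hsub
    simp only [Function.comp_def] at h1
    exact h1
  · have h1 := (hi_smooth h).comp hemb hsub
    simp only [Function.comp_def] at h1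
    exact h1

end Pool.Agent.Helper7.CIR
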